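import Pool.Agent.Y245.UC.Stm2

set_option autoImplicit false

/-!
# Project UC, jobs LOC and DISC: continuation across a boundary point of a disc in which the
branch is bounded, and the reflection of a disc.
-/

open Complex MeasureTheory Metric Set Filter Topology ComplexConjugate
open Pool.Agent.Y245.SC Pool.Agent.Y245.UC

namespace Pool.Agent.Y604.UC

theorem kerU_diff (hK : S_KAP) {φ : ℂ → ℂ} {a : ℝ} (ha : 0 ≤ a)
    (hφ : DifferentiableOn ℂ φ (ball 0 1)) {p : ℂ × ℂ × ℂ} (h1 : p.1 ∈ ball (0 : ℂ) 1)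
    (h2 : p.2.1 ∈ ball (0 : ℂ) 1) :
    DifferentiableAt ℂ (fun p : ℂ × ℂ × ℂ => kerU a φ p.1 p.2.1 p.2.2) p := by
  have hk := (hK a ha).1
  have e1 := isOpen_ball.mem_nhds h1
  have e2 := isOpen_ball.mem_nhds h2
  have d1 : DifferentiableAt ℂ (fun p : ℂ × ℂ × ℂ => φ p.1) p :=
    DifferentiableAt.comp p (hφ.differentiableAt e1) (by fun_prop)
  have d2 : DifferentiableAt ℂ (fun p : ℂ × ℂ × ℂ => φ p.2.1) p :=
    DifferentiableAt.comp p (hφ.differentiableAt e2) (by fun_prop)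
  have d3 : DifferentiableAt ℂ (fun p : ℂ × ℂ × ℂ => deriv φ p.1) p :=
    DifferentiableAt.comp p ((hφ.deriv isOpen_ball).differentiableAt e1) (by fun_prop)
  have d5 : DifferentiableAt ℂ (fun p : ℂ × ℂ × ℂ => p.2.2) p := by fun_prop
  have d4 : DifferentiableAt ℂ
      (fun p : ℂ × ℂ × ℂ => kap a (p.2.2 * (φ p.1 - φ p.2.1))) p :=
    DifferentiableAt.comp p (hk _) (d5.mul (d1.sub d2))
  exact ((d5.pow 2).mul d4).mul d3

theorem kerU_bound (hK : S_KAP) {φ : ℂ → ℂ} {a : ℝ} (ha : 0 ≤ a) {Φ Φ' X : ℝ} {S : Set ℂ}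
    (hΦ : ∀ w ∈ S, ‖φ w‖ ≤ Φ) (hΦ' : ∀ w ∈ S, ‖deriv φ w‖ ≤ Φ')
    {v u0 ξ : ℂ} (h1 : v ∈ S) (h2 : u0 ∈ S) (hξ : ‖ξ‖ ≤ X) :
    ‖kerU a φ v u0 ξ‖ ≤ X ^ 2 * (a * Real.exp (a * (X * (2 * Φ)))) * Φ' := by
  have hX : 0 ≤ X := (norm_nonneg _).trans hξ
  have hΦ0 : 0 ≤ Φ := (norm_nonneg _).trans (hΦ _ h1)
  have hΦ0' : 0 ≤ Φ' := (norm_nonneg _).trans (hΦ' _ h1)
  have k1 : ‖ξ * (φ v - φ u0)‖ ≤ X * (2 * Φ) := by
    rw [norm_mul]
    refine mul_le_mul hξ ?_ (norm_nonneg _) hX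
    refine (norm_sub_le _ _).trans ?_
    have := hΦ _ h1
    have := hΦ _ h2
    linarith
  have k2 : ‖kap a (ξ * (φ v - φ u0))‖ ≤ a * Real.exp (a * (X * (2 * Φ))) :=
    ((hK a ha).2.1 _).trans (by gcongr)
  have k3 : ‖deriv φ v‖ ≤ Φ' := hΦ' _ h1
  unfold kerU
  rw [norm_mul, norm_mul, norm_pow]
  gcongr

theorem uloc : U_LOC := by
  intro hStep hK hSeg hPar hPic φ F a ρ M c p P ha hρ hφ hc hF hM hp hVG hP
  have ha0 : 0 ≤ a := ha.le
  obtain ⟨H, hH, hHe⟩ := hVG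
  have hcb : ball c ρ ⊆ ball (0 : ℂ) 1 := ball_subset_closedBall.trans hc
  have hPc : P ∈ closedBall c ρ := sphere_subset_closedBall hP
  have hP1 : ‖P‖ < 1 := mem_ball_zero_iff.mp (hc hPc)
  obtain ⟨s, hs⟩ : ∃ s : ℝ, s = (1 - ‖P‖) / 2 := ⟨_, rfl⟩
  have hs0 : 0 < s := by rw [hs]; linarith
  have hsb : closedBall P s ⊆ ball (0 : ℂ) 1 := by
    intro x hx
    rw [mem_ball_zero_iff]
    have h1 : ‖x - P‖ ≤ s := by rw [← dist_eq_norm]; exact hx
    have h2 : ‖x‖ ≤ ‖x - P‖ + ‖P‖ := by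
      have := norm_add_le (x - P) P
      rwa [sub_add_cancel] at this
    linarith
  obtain ⟨S, hS⟩ : ∃ S : Set ℂ, S = closedBall c ρ ∪ closedBall P s := ⟨_, rfl⟩
  have hSc : IsCompact S := by
    rw [hS]
    exact (isCompact_closedBall c ρ).union (isCompact_closedBall P s)
  have hSb : S ⊆ ball (0 : ℂ) 1 := by
    rw [hS]
    exact union_subset hc hsb
  have hS1 : ∀ x ∈ ball c ρ, x ∈ S := fun x hx => by
    rw [hS]
    exact Or.inl (ball_subset_closedBall hx)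
  have hS2 : ∀ x ∈ closedBall P s, x ∈ S := fun x hx => by
    rw [hS]
    exact Or.inr hx
  obtain ⟨Φ, hΦ⟩ := hSc.exists_bound_of_continuousOn (hφ.continuousOn.mono hSb)
  obtain ⟨Φ', hΦ'⟩ := hSc.exists_bound_of_continuousOn
    ((hφ.deriv isOpen_ball).continuousOn.mono hSb)
  obtain ⟨B, hB⟩ := (isCompact_closedBall P s).exists_bound_of_continuousOn
    (hH.continuousOn.mono hsb)
  have hPs : P ∈ closedBall P s := mem_closedBall_self hs0.le
  have hΦ0 : 0 ≤ Φ := (norm_nonneg _).trans (hΦ P (hS2 P hPs))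
  have hΦ0' : 0 ≤ Φ' := (norm_nonneg _).trans (hΦ' P (hS2 P hPs))
  have hB0 : 0 ≤ B := (norm_nonneg _).trans (hB P hPs)
  have hM0 : 0 ≤ M := (norm_nonneg _).trans (hM p hp)
  obtain ⟨KB, hKB⟩ : ∃ KB : ℝ → ℝ, ∀ X, KB X =
    X ^ 2 * (a * Real.exp (a * (X * (2 * Φ)))) * Φ' := ⟨_, fun _ => rfl⟩
  have hKB0 : ∀ X, 0 ≤ KB X := by
    intro X
    rw [hKB]
    positivity
  obtain ⟨M1, hM1⟩ : ∃ M1 : ℝ, M1 = M + 1 + B + KB M * (2 * ρ) := ⟨_, rfl⟩
  have hp1 : 0 ≤ KB M * (2 * ρ) := mul_nonneg (hKB0 _) (by linarith)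
  have hM1pos : 0 < M1 := by linarith
  have hMM1 : M ≤ M1 := by linarith
  obtain ⟨L, hL⟩ : ∃ L : ℝ, L = KB (3 * M1) := ⟨_, rfl⟩
  have hL0 : 0 ≤ L := by rw [hL]; exact hKB0 _
  obtain ⟨r, hr⟩ : ∃ r : ℝ, r = min (s / 2) (M1 / (8 * (L + 1))) := ⟨_, rfl⟩
  have hr0 : 0 < r := by rw [hr]; exact lt_min (by linarith) (by positivity)
  have hrs : r ≤ s / 2 := by rw [hr]; exact min_le_left _ _
  have hrL : r * L ≤ M1 / 8 := by
    have h1 : r ≤ M1 / (8 * (L + 1)) := by rw [hr]; exact min_le_right _ _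
    calc r * L ≤ r * (L + 1) := by gcongr; linarith
      _ ≤ M1 / (8 * (L + 1)) * (L + 1) := by gcongr
      _ = M1 / 8 := by field_simp
  -- the centre
  have hPcl : P ∈ closure (ball c ρ) := by
    rw [closure_ball c hρ.ne']
    exact hPc
  obtain ⟨u1, hu1, hu1P⟩ := Metric.mem_closure_iff.mp hPcl (r / 2) (by linarith)
  have hball : ball u1 r ⊆ closedBall P s := by
    intro x hx
    have h1 : dist x u1 < r := hx
    have h2 := dist_triangle x u1 P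
    rw [dist_comm u1 P] at h2
    rw [mem_closedBall]
    linarith
  obtain ⟨H1, hH1⟩ : ∃ H1 : ℂ → ℂ, H1 = fun u0 => H u0 +
    seg (fun v => kerU a φ v u0 (F v - 0)) p u1 := ⟨_, rfl⟩
  have hst : VGH a φ 0 u1 F H1 := by
    rw [hH1]
    exact hStep hK hSeg hPar φ F H a 0 p u1 (ball c ρ) ha hφ isOpen_ball (convex_ball c ρ) hcb hF
      hp hu1 ⟨hH, hHe⟩
  obtain ⟨hH1d, hH1e⟩ := hst
  obtain ⟨δ1, hδ10, hδ1⟩ := Metric.eventually_nhds_iff_ball.mp
    (hH1e.and (isOpen_ball.mem_nhds hu1))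
  obtain ⟨δ, hδd⟩ : ∃ δ : ℝ, δ = min δ1 r := ⟨_, rfl⟩
  have hδ0 : 0 < δ := by rw [hδd]; exact lt_min hδ10 hr0
  have hδδ1 : δ ≤ δ1 := by rw [hδd]; exact min_le_left _ _
  have hδr : δ ≤ r := by rw [hδd]; exact min_le_right _ _
  have hpath : ∀ t ∈ Icc (0 : ℝ) 1, p + t * (u1 - p) ∈ ball c ρ := by
    intro t ht
    have h1 := (convex_ball c ρ) hp hu1 (by linarith [ht.2] : (0 : ℝ) ≤ 1 - t) ht.1 (by ring)
    have h2 : p + t * (u1 - p) = (1 - t) • p + t • u1 := by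
      rw [real_smul, real_smul]
      push_cast
      ring
    rw [h2]
    exact h1
  have hAd : DifferentiableOn ℂ H1 (ball u1 r) := hH1d.mono (hball.trans hsb)
  have hAb : ∀ ω ∈ ball u1 r, ‖H1 ω‖ ≤ M1 := by
    intro u0 hu0
    have h7 := hB _ (hball hu0)
    have h9 : ‖seg (fun v => kerU a φ v u0 (F v - 0)) p u1‖ ≤ KB M * (2 * ρ) * |1 - 0| := by
      refine intervalIntegral.norm_integral_le_of_norm_le_const ?_
      intro t ht
      rw [uIoc_of_le zero_le_one] at ht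
      have e1 := hpath t ⟨ht.1.le, ht.2⟩
      rw [norm_mul]
      have e2 : ‖u1 - p‖ ≤ 2 * ρ := by
        rw [← dist_eq_norm]
        have h1 : dist u1 c < ρ := hu1
        have h2 : dist p c < ρ := hp
        have h3 := dist_triangle_right u1 p c
        linarith
      refine mul_le_mul ?_ e2 (norm_nonneg _) (hKB0 M)
      rw [hKB]
      refine kerU_bound hK ha0 hΦ hΦ' (hS1 _ e1) (hS2 _ (hball hu0)) ?_
      rw [sub_zero]
      exact hM _ e1
    rw [sub_zero, abs_one, mul_one] at h9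
    rw [hH1]
    refine (norm_add_le _ _).trans ?_
    linarith
  have hκd : DifferentiableOn ℂ (fun p : ℂ × ℂ × ℂ => kerU a φ p.1 p.2.1 p.2.2)
      (ball u1 r ×ˢ ball u1 r ×ˢ ball 0 (3 * M1)) := by
    rintro ⟨x, y, z⟩ ⟨hx, hy, hz⟩
    exact (kerU_diff hK ha0 hφ (hsb (hball hx)) (hsb (hball hy))).differentiableWithinAt
  have hκb : ∀ p ∈ ball u1 r ×ˢ ball u1 r ×ˢ ball (0 : ℂ) (3 * M1),
      ‖kerU a φ p.1 p.2.1 p.2.2‖ ≤ L := by
    rintro ⟨x, y, z⟩ ⟨hx, hy, hz⟩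
    rw [hL, hKB]
    exact kerU_bound hK ha0 hΦ hΦ' (hS2 _ (hball hx)) (hS2 _ (hball hy))
      (mem_ball_zero_iff.mp hz).le
  have hFd : DifferentiableOn ℂ F (ball u1 δ) := fun ω hω =>
    (hF.differentiableAt (isOpen_ball.mem_nhds
      (hδ1 ω (ball_subset_ball hδδ1 hω)).2)).differentiableWithinAt
  have hFb : ∀ ω ∈ ball u1 δ, ‖F ω‖ ≤ M1 := fun ω hω =>
    (hM ω (hδ1 ω (ball_subset_ball hδδ1 hω)).2).trans hMM1
  have heq : ∀ ω0 ∈ ball u1 δ, F ω0 = H1 ω0 +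
      seg (fun ω => kerU a φ ω ω0 (F ω)) u1 ω0 := by
    intro ω0 hω0
    have h1 := (hδ1 ω0 (ball_subset_ball hδδ1 hω0)).1
    simp only [sub_zero] at h1
    exact h1
  obtain ⟨F', hF1, -, hF3⟩ := hPic hPar u1 r δ M1 L H1
    (fun p : ℂ × ℂ × ℂ => kerU a φ p.1 p.2.1 p.2.2) F hδ0 hδr hM1pos hL0 hrL hAd hAb hκd hκb
    hFd hFb heq
  -- the identity theorem
  obtain ⟨V, hVd⟩ : ∃ V : Set ℂ, V = ball u1 r ∩ ball c ρ := ⟨_, rfl⟩
  have hVo : IsOpen V := by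
    rw [hVd]
    exact isOpen_ball.inter isOpen_ball
  have hVc : IsPreconnected V := by
    rw [hVd]
    exact ((convex_ball u1 r).inter (convex_ball c ρ)).isPreconnected
  have hu1V : u1 ∈ V := by
    rw [hVd]
    exact ⟨mem_ball_self hr0, hu1⟩
  have hEq : EqOn F' F V := by
    have q1 : AnalyticOnNhd ℂ F' V := by
      refine DifferentiableOn.analyticOnNhd (hF1.mono ?_) hVo
      rw [hVd]
      exact inter_subset_left
    have q2 : AnalyticOnNhd ℂ F V := by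
      refine DifferentiableOn.analyticOnNhd (hF.mono ?_) hVo
      rw [hVd]
      exact inter_subset_right
    exact q1.eqOn_of_preconnected_of_eventuallyEq q2 hVc hu1V
      (hF3.eventuallyEq_of_mem (ball_mem_nhds u1 hδ0))
  have hsubb : ball P (r / 2) ⊆ ball u1 r := by
    refine ball_subset_ball' ?_
    linarith
  refine ⟨r / 2, F', by linarith, hF1.mono hsubb, fun v hv => hEq ?_⟩
  rw [hVd]
  exact ⟨hsubb hv.1, hv.2⟩

theorem udisc : U_DISC := by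
  intro c ρ hρ h1
  have hc : ‖c‖ ^ 2 = c.re ^ 2 + c.im ^ 2 := by
    rw [Complex.sq_norm, Complex.normSq_apply]
    ring
  obtain ⟨D, hD⟩ : ∃ D : ℝ, D = ‖c‖ ^ 2 - ρ ^ 2 := ⟨_, rfl⟩
  have hD0 : 0 < D := by
    rw [hD]
    nlinarith
  rw [← hD]
  have hD' : D = c.re ^ 2 + c.im ^ 2 - ρ ^ 2 := by rw [hD, hc]
  ext v
  have key1 : v ∈ ball (((1 / D : ℝ) : ℂ) * c) (ρ / D) ↔
      D * (v.re ^ 2 + v.im ^ 2) - 2 * (c.re * v.re + c.im * v.im) + 1 < 0 := by
    rw [mem_ball, dist_eq_norm, ← sq_lt_sq₀ (norm_nonneg _) (by positivity), Complex.sq_norm,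
      Complex.normSq_apply]
    have e1 : (v - ((1 / D : ℝ) : ℂ) * c).re = v.re - c.re / D := by
      simp
      ring
    have e2 : (v - ((1 / D : ℝ) : ℂ) * c).im = v.im - c.im / D := by
      simp
      ring
    rw [e1, e2]
    have e3 : (v.re - c.re / D) * (v.re - c.re / D) + (v.im - c.im / D) * (v.im - c.im / D) -
        (ρ / D) ^ 2 = (D * (v.re ^ 2 + v.im ^ 2) - 2 * (c.re * v.re + c.im * v.im) + 1) / D := by
      have e4 : (v.re - c.re / D) * (v.re - c.re / D) + (v.im - c.im / D) * (v.im - c.im / D) -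
        (ρ / D) ^ 2 = v.re ^ 2 + v.im ^ 2 - 2 * (c.re * v.re + c.im * v.im) / D +
          (c.re ^ 2 + c.im ^ 2 - ρ ^ 2) / D ^ 2 := by
        field_simp
        ring
      rw [e4, ← hD']
      field_simp
    rw [← sub_neg, e3, div_neg_iff]
    constructor
    · rintro (h | h)
      · linarith [h.2]
      · exact h.1
    · intro h
      exact Or.inr ⟨h, hD0⟩
  rw [key1]
  constructor
  · rintro ⟨hv, hb⟩
    have hv' : conj v ≠ 0 := (map_ne_zero _).mpr hv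
    have hvn : 0 < ‖v‖ := norm_pos_iff.mpr hv
    rw [mem_ball, dist_eq_norm] at hb
    have e1 : 1 / conj v - c = (1 - c * conj v) / conj v := by
      field_simp
    rw [e1, norm_div, RCLike.norm_conj, div_lt_iff₀ hvn,
      ← sq_lt_sq₀ (norm_nonneg _) (by positivity), mul_pow, Complex.sq_norm, Complex.sq_norm,
      Complex.normSq_apply, Complex.normSq_apply] at hb
    simp only [sub_re, sub_im, one_re, one_im, mul_re, mul_im, conj_re, conj_im] at hb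
    rw [hD']
    nlinarith
  · intro h
    have hv : v ≠ 0 := by
      rintro rfl
      simp at h
      linarith
    refine ⟨hv, ?_⟩
    have hv' : conj v ≠ 0 := (map_ne_zero _).mpr hv
    have hvn : 0 < ‖v‖ := norm_pos_iff.mpr hv
    rw [mem_ball, dist_eq_norm]
    have e1 : 1 / conj v - c = (1 - c * conj v) / conj v := by
      field_simp
    rw [e1, norm_div, RCLike.norm_conj, div_lt_iff₀ hvn,
      ← sq_lt_sq₀ (norm_nonneg _) (by positivity), mul_pow, Complex.sq_norm, Complex.sq_norm,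
      Complex.normSq_apply, Complex.normSq_apply]
    simp only [sub_re, sub_im, one_re, one_im, mul_re, mul_im, conj_re, conj_im]
    rw [hD'] at h
    nlinarith

end Pool.Agent.Y604.UC
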